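import Pool.Agent.Lib.MP_fc2ced_ag.G.PFin

/-! The motives of projective varieties whose terms satisfy at most one relation, and of the
complements of unions of coordinate subspaces in them, are Schur-finite. -/

namespace Pool.Agent.Results.MP_fc2ced_ag.Circuits

open Pool.Agent.Lib.MP_fc2ced_ag MvPolynomial

/-- The homogeneous coordinates are `s = X none`, `t = X (some none)` and
`xᵢ = X (some (some i))`. The term with index `l` is `G l (s, t) * ∏ᵢ xᵢ ^ m l i` and belongs to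
the equation with index `e l`. The monomials with exponents `μ j` cut out the removed subset. -/
theorem result (k : Type) [Field k] [IsAlgClosed k] (σ ι κ Λ : Type) [Fintype σ] [Fintype Λ]
    [DecidableEq ι] (e : Λ → ι) (m : Λ → σ → ℕ) (G : Λ → MvPolynomial (Fin 2) k) (D : ι → ℕ)
    (hG : ∀ l, ∃ c, (G l).IsHomogeneous c ∧ c + ∑ i, m l i = D (e l))
    (γ : Λ → ℤ) (a d : Λ → ℕ)
    (h1 : ∀ r : Λ → ℤ, (∀ j, ∑ l with e l = j, r l = 0) → (∀ i, ∑ l, r l * m l i = 0) →
      ∃ u v : ℤ, u ≠ 0 ∧ ∀ l, u * r l = v * γ l)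
    (h2 : ∀ l, γ l ≠ 0 → (γ l : k) ≠ 0 ∧ ∃ c, G l = C c * X 0 ^ a l * X 1 ^ d l)
    (h3 : (∑ l, γ l * d l).natAbs ≤ 1) (μ : κ → Option (Option σ) →₀ ℕ) :
    P.TwFinite (k := k) (σ := Option σ)
      (fun j : ι => ∑ l with e l = j,
        aeval ![X none, X (some none)] (G l) * ∏ i, X (some (some i)) ^ m l i)
      fun j : κ => monomial (μ j) 1 :=
  T.schurFinite_hsys (F := ℂ) hG T.wallP_pt T.wallP_cur h1 h2 h3 μ

end Pool.Agent.Results.MP_fc2ced_ag.Circuits
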