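import Pool.Agent.Lib.MP_fc2ced_ag.C.Fin

/-! The motives with compact support of the abelian coverings of the affine space that are branched
along a chain of hyperplanes `xᵢ = a`, `xᵢ₊₁ = xᵢ` are Schur-finite. -/

namespace Pool.Agent.Results.MP_fc2ced_ag.KatzChains

open Pool.Agent.Lib.MP_fc2ced_ag MvPolynomial

/-- The affine coordinates are `xᵢ = X (inl i)`, `0 ≤ i ≤ n`, and `yₗ = X (inr l)`. The forms `f l`
are homogenizations, with the new variable `X none`, of the equations of the variety. -/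
theorem result (k : Type) [Field k] [IsAlgClosed k] (h2 : (2 : k) ≠ 0) (N : ℕ) (hN : (N : k) ≠ 0)
    (n : ℕ) (ρ : Type) [Fintype ρ] (p q : ρ → Fin (n + 1) → Polynomial k) (b c : ρ → Fin n → ℕ)
    (f : ρ → MvPolynomial (Option (Fin (n + 1) ⊕ ρ)) k) (hf : ∀ l, ∃ d, (f l).IsHomogeneous d)
    (he : ∀ l, aeval (fun o => o.elim 1 X) (f l) =
      X (.inr l) ^ N * ((∏ i, Polynomial.aeval (X (.inl i)) (q l i)) *
        ∏ i : Fin n, (X (.inl i.succ) - X (.inl i.castSucc)) ^ c l i) -
      (∏ i, Polynomial.aeval (X (.inl i)) (p l i)) *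
        ∏ i : Fin n, (X (.inl i.succ) - X (.inl i.castSucc) :
          MvPolynomial (Fin (n + 1) ⊕ ρ) k) ^ b l i) :
    P.TwFinite f fun _ : Unit => X none :=
  T.C.Rd.main_fin h2 hN p q b c f hf he

end Pool.Agent.Results.MP_fc2ced_ag.KatzChains
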