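import Pool.Agent.Lib.MP_fc2ced_ag.K.Main

/-! The motives with compact support of the Kloosterman varieties
`y ^ p - y = x₁ + ⋯ + xₙ`, `x₁ ⋯ xₙ = a` are Schur-finite. -/

namespace Pool.Agent.Results.MP_fc2ced_ag.Kloosterman

open Pool.Agent.Lib.MP_fc2ced_ag.K MvPolynomial

/-- The variables are `T = X none`, `y = X (some none)` and `xᵢ = X (some (some i))`; the two
polynomials are the homogenized equations of the Kloosterman variety. -/
theorem result (k : Type) [Field k] (p : ℕ) [Fact p.Prime] [CharP k p] (n : ℕ) (hn : 0 < n)
    (a : k) (ha : a ≠ 0) :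
    SchurFinite (k := k) (σ := Option (Fin n))
      ![X (some none) ^ p - X (some none) * X none ^ (p - 1) -
          (∑ i, X (some (some i))) * X none ^ (p - 1),
        ∏ i, X (some (some i)) - C a * X none ^ n] :=
  main p hn a ha

end Pool.Agent.Results.MP_fc2ced_ag.Kloosterman
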