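import Pool.Agent.Lib.MP_fc2ced_ag.R.Main
import Pool.Agent.Lib.MP_fc2ced_ag.R.GLc

/-! The motives of the Deligne-Lusztig varieties of all connected reductive groups, for all
Steinberg endomorphisms and all sequences of elements of the Weyl group, are Schur-finite. -/

namespace Pool.Agent.Results.MP_fc2ced_ag.ReductiveDL

open Pool.Agent.Lib.MP_fc2ced_ag.E Pool.Agent.Lib.MP_fc2ced_ag.R

theorem result (k : Type) [Field k] [IsAlgClosed k] (p : ℕ) [Fact p.Prime] [CharP k p] (e : ℕ)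
    [NeZero e] (G : Type) [Group G] (n r : ℕ) (S : Type) [Finite S] (D : Red k G n r S)
    (F : G →* G) (hF : Stein D (p ^ e) F) (m : ℕ) (w : Fin (m + 1) → D.N) :
    Algebra.Smooth k (DLPol D F w) ∧ SchurFinite k (DLPol D F w) :=
  main hF ⟨p, e, Fact.out, CharP.cast_eq_zero k p, NeZero.pos e, rfl⟩ w

/-- The hypotheses hold for the general linear group, with the upper unitriangular matrices, the
monomial matrices, and the Frobenius maps of the finite general linear and unitary groups. -/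
theorem example_GL (k : Type) [Field k] [IsAlgClosed k] (p : ℕ) [Fact p.Prime] [CharP k p]
    (e n : ℕ) : ∃ D : Red k (GL (Fin (n + 1)) k) (n + 1) (n + 1) (Fin n),
      D.ρ = MonoidHom.id _ ∧ (∀ u, u ∈ D.U ↔ ∀ i j, j ≤ i → u i j = if i = j then 1 else 0) ∧
      (∀ (g : GL (Fin (n + 1)) k) (v : Equiv.Perm (Fin (n + 1))),
        (∀ i j, g i j = if i = v j then 1 else 0) → g ∈ D.N) ∧
      (∃ F, (∀ g i j, F g i j = g i j ^ p ^ e) ∧ Stein D (p ^ e) F) ∧
      ∃ F, (∀ g i j, F g i j = (g⁻¹ : GL (Fin (n + 1)) k) j.rev i.rev ^ p ^ e) ∧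
        Stein D (p ^ (2 * e)) F := by
  obtain ⟨D, h1, h2, h3, h4⟩ := GLn.exists_red k n
  have : ExpChar k p := .prime Fact.out
  exact ⟨D, h1, fun u => h2 ▸ mem_Uni, fun g v h => (h3 g).2 ⟨v, 1, Units.ext (Matrix.ext h)⟩,
    ⟨_, fun _ _ _ => rfl, (h4 p e).1⟩, _, fun _ _ _ => rfl, (h4 p e).2⟩

end Pool.Agent.Results.MP_fc2ced_ag.ReductiveDL
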